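import Pool.Agent.Helper50.VD.St

open MeasureTheory Set Filter Topology
open scoped ENNReal

noncomputable section

namespace VD.M_R3

/-- first integral, exact value -/
lemma part1 (S : ℝ) (hS : 0 < S) :
    ∫ s in (0 : ℝ)..S, (s / (2 * S) + (S - s) / (2 * Real.pi * S) * Real.log ((S + s) / (S - s)))
      = S * (1 / 4 + (2 * Real.log 2 - 1) / (2 * Real.pi)) := by
  have hpi : Real.pi ≠ 0 := Real.pi_ne_zero
  have hcongr : ∫ s in (0 : ℝ)..S,
      (s / (2 * S) + (S - s) / (2 * Real.pi * S) * Real.log ((S + s) / (S - s))) =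
      ∫ s in (0 : ℝ)..S, (s / (2 * S) + (1 / (2 * Real.pi * S)) *
        ((S - s) * Real.log (S + s) - (S - s) * Real.log (S - s))) := by
    apply intervalIntegral.integral_congr
    intro s hs
    rw [uIcc_of_le hS.le] at hs
    simp only
    rcases eq_or_lt_of_le hs.2 with h | h
    · subst h; simp
    · rw [Real.log_div (by linarith [hs.1]) (by linarith)]
      ring
  rw [hcongr]
  set F : ℝ → ℝ := fun s => s ^ 2 / (4 * S) + (1 / (2 * Real.pi * S)) *
    ((2 * S * ((S + s) * Real.log (S + s) - (S + s)) -
      ((S + s) / 2 * ((S + s) * Real.log (S + s)) - (S + s) ^ 2 / 4)) +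
      ((S - s) / 2 * ((S - s) * Real.log (S - s)) - (S - s) ^ 2 / 4)) with hF
  have hcl : Continuous fun x : ℝ => x * Real.log x := Real.continuous_mul_log
  have hc1 : Continuous fun s : ℝ => (S + s) * Real.log (S + s) :=
    hcl.comp (continuous_const.add continuous_id)
  have hc2 : Continuous fun s : ℝ => (S - s) * Real.log (S - s) :=
    hcl.comp (continuous_const.sub continuous_id)
  have hFc : ContinuousOn F (Icc 0 S) := by
    apply Continuous.continuousOn
    rw [hF]
    fun_prop
  have hderiv : ∀ x ∈ Ioo (0 : ℝ) S, HasDerivAt F (x / (2 * S) + (1 / (2 * Real.pi * S)) *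
        ((S - x) * Real.log (S + x) - (S - x) * Real.log (S - x))) x := by
    intro x hx
    have h1 : HasDerivAt (fun s : ℝ => S + s) 1 x := by
      simpa using (hasDerivAt_id x).const_add S
    have h2 : HasDerivAt (fun s : ℝ => S - s) (-1) x := by
      simpa using (hasDerivAt_id x).const_sub S
    have hp : S + x ≠ 0 := by linarith [hx.1]
    have hm : S - x ≠ 0 := by linarith [hx.2]
    have h3 := h1.log hp
    have h4 := h2.log hm
    have h5 := h1.mul h3
    have h6 := h2.mul h4
    have h7 := ((((h5.sub h1).const_mul (2 * S)).sub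
      (((h1.div_const 2).mul h5).sub ((h1.pow 2).div_const 4))).add
      (((h2.div_const 2).mul h6).sub ((h2.pow 2).div_const 4))).const_mul
      (1 / (2 * Real.pi * S))
    have h8 := (((hasDerivAt_id x).pow 2).div_const (4 * S)).add h7
    refine h8.congr_deriv ?_
    simp only [id, Pi.mul_apply]
    field_simp
    ring
  have hint : IntervalIntegrable (fun x : ℝ => x / (2 * S) + (1 / (2 * Real.pi * S)) *
        ((S - x) * Real.log (S + x) - (S - x) * Real.log (S - x))) volume 0 S := by
    apply ContinuousOn.intervalIntegrable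
    rw [uIcc_of_le hS.le]
    have hl : ContinuousOn (fun x : ℝ => Real.log (S + x)) (Icc 0 S) := by
      apply ContinuousOn.log (by fun_prop)
      intro x hx
      linarith [hx.1]
    have : ContinuousOn (fun s : ℝ => (S - s) * Real.log (S - s)) (Icc 0 S) := hc2.continuousOn
    fun_prop
  rw [intervalIntegral.integral_eq_sub_of_hasDerivAt_of_le hS.le hFc hderiv hint]
  simp only [hF]
  have h2S : Real.log (S + S) = Real.log 2 + Real.log S := by
    rw [← Real.log_mul (by norm_num) hS.ne']; congr 1; ring
  rw [h2S]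
  simp only [sub_self, add_zero, sub_zero, zero_mul, mul_zero, zero_div]
  field_simp
  ring

lemma log_bd : Real.log (1 / 0.471) ≤ 0.753 := by
  rw [Real.log_le_iff_le_exp (by norm_num)]
  refine le_trans ?_ (Real.sum_le_exp_of_nonneg (by norm_num : (0 : ℝ) ≤ 0.753) 7)
  norm_num [Finset.sum_range_succ, Nat.factorial]

lemma kap_bd : (2 * Real.log 2 - 1) / (2 * Real.pi) ≤ 0.0615 := by
  have h1 := Real.log_two_lt_d9
  have h2 := Real.pi_gt_d4
  have hpos : 0 < 2 * Real.pi := by positivity
  rw [div_le_iff₀ hpos]
  nlinarith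

/-- the final scalar inequality -/
lemma scal (S m : ℝ) (hS : 0 ≤ S) (hm : 0 < m) :
    (2 * Real.log 2 - 1) / (2 * Real.pi) * S - 0.1462 + m / 4 + S / 4 * Real.log (m / S)
      - 0.23615 * m ^ 2 < 0 := by
  have hk := kap_bd
  rcases eq_or_lt_of_le hS with h | h
  · subst h
    simp
    nlinarith [sq_nonneg (m - 0.5293)]
  · have hlog : Real.log (m / S) ≤ 0.753 + 0.471 * (m / S) - 1 := by
      have h1 : Real.log (m / S) = Real.log (1 / 0.471) + Real.log (0.471 * (m / S)) := by
        rw [← Real.log_mul (by norm_num) (by positivity)]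
        congr 1
        ring
      have h2 : Real.log (0.471 * (m / S)) ≤ 0.471 * (m / S) - 1 :=
        Real.log_le_sub_one_of_pos (by positivity)
      have h3 := log_bd
      linarith
    have h4 : S / 4 * Real.log (m / S) ≤ S / 4 * (0.753 + 0.471 * (m / S) - 1) := by
      apply mul_le_mul_of_nonneg_left hlog (by positivity)
    have h5 : S / 4 * (0.753 + 0.471 * (m / S) - 1) = S / 4 * (-0.247) + 0.471 / 4 * m := by
      field_simp
      ring
    have h6 : (2 * Real.log 2 - 1) / (2 * Real.pi) * S ≤ 0.0615 * S :=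
      mul_le_mul_of_nonneg_right hk h.le
    rw [h5] at h4
    nlinarith [sq_nonneg (m - 0.7786)]

end VD.M_R3

namespace VD

open VD.M_R3

/-- two scalar integral inequalities -/
theorem mR3 : StR3 := by
  refine ⟨fun S hS => (part1 S hS).le, ?_⟩
  intro S hS0 hS1
  -- the cut point
  set δ : ℝ := 0.4723 with hδ
  set r : ℝ := Real.sqrt (1 + 16 * δ * S) with hr
  have hr2 : r ^ 2 = 1 + 16 * δ * S := Real.sq_sqrt (by positivity)
  have hr1 : 1 ≤ r := by
    rw [hr]
    apply Real.one_le_sqrt.mpr
    have : (0 : ℝ) ≤ 16 * δ * S := by positivity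
    linarith
  set m0 : ℝ := (1 + r) / (8 * δ) with hm0
  have hδpos : 0 < δ := by norm_num [hδ]
  have hm0pos : 0 < m0 := by positivity
  have hroot : 4 * δ * m0 ^ 2 - m0 - S = 0 := by
    rw [hm0]
    field_simp
    nlinarith [hr2]
  set m : ℝ := min m0 1 with hm
  have hmpos : 0 < m := lt_min hm0pos one_pos
  have hm1 : m ≤ 1 := min_le_right _ _
  have hmm0 : m ≤ m0 := min_le_left _ _
  have hSm0 : S ≤ m0 := by
    by_contra hc
    push Not at hc
    have h1 : m0 < 1 := by linarith
    rw [hδ] at hroot
    nlinarith [mul_pos hm0pos (sub_pos.mpr h1)]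
  have h4m : 1 ≤ 4 * δ * m0 := by
    by_contra hc
    push Not at hc
    nlinarith [mul_pos hm0pos (sub_pos.mpr hc)]
  have hSm : S ≤ m := le_min hSm0 hS1
  -- sign of the bracket
  have hlow : ∀ s, 0 < s → s ≤ m0 → -(0.2924 * s) ≤ 1 / 4 * (1 + S / s) - 0.7647 * s := by
    intro s hs hsm
    have h1 : 4 * δ * s ^ 2 - s - S ≤ 0 := by
      have h5 : 0 ≤ 4 * δ * m0 * (s * (m0 - s)) := by
        have := sub_nonneg.mpr hsm
        positivity
      have h6 : 0 ≤ (m0 - s) * S := mul_nonneg (sub_nonneg.mpr hsm) hS0
      have h7 : m0 * (4 * δ * s ^ 2 - s - S) = s * (4 * δ * m0 ^ 2 - m0 - S) -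
          4 * δ * m0 * (s * (m0 - s)) - (m0 - s) * S := by ring
      rw [hroot] at h7
      by_contra hc
      push Not at hc
      have := mul_pos hm0pos hc
      linarith
    have h2 : 0 ≤ (1 / 4 * (1 + S / s) - 0.7647 * s + 0.2924 * s) := by
      have : 1 / 4 * (1 + S / s) - 0.7647 * s + 0.2924 * s = (s + S - 4 * δ * s ^ 2) / (4 * s) := by
        rw [hδ]
        field_simp
        ring
      rw [this]
      apply div_nonneg (by linarith) (by positivity)
    linarith
  have hhigh : ∀ s, m0 ≤ s → 1 / 4 * (1 + S / s) - 0.7647 * s ≤ -(0.2924 * s) := by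
    intro s hsm
    have hs : 0 < s := lt_of_lt_of_le hm0pos hsm
    have h1 : 0 ≤ 4 * δ * s ^ 2 - s - S := by
      have h5 : 0 ≤ (s - m0) * (4 * δ * s + (4 * δ * m0 - 1)) := by
        have h8 := sub_nonneg.mpr hsm
        have h9 := sub_nonneg.mpr h4m
        positivity
      have h7 : (s - m0) * (4 * δ * s + (4 * δ * m0 - 1)) =
          (4 * δ * s ^ 2 - s - S) - (4 * δ * m0 ^ 2 - m0 - S) := by ring
      rw [hroot] at h7
      linarith
    have h2 : (1 / 4 * (1 + S / s) - 0.7647 * s + 0.2924 * s) ≤ 0 := by
      have : 1 / 4 * (1 + S / s) - 0.7647 * s + 0.2924 * s = -((4 * δ * s ^ 2 - s - S) / (4 * s)) := by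
        rw [hδ]
        field_simp
        ring
      rw [this]
      exact neg_nonpos.mpr (div_nonneg h1 (by positivity))
    linarith
  -- continuity of the integrand on [S, 1]
  have hSs : ∀ s ∈ Icc S 1, 0 < s ∨ S = 0 := by
    intro s hs
    rcases eq_or_lt_of_le hS0 with h | h
    · right; exact h.symm
    · left; linarith [hs.1]
  have hcont : ContinuousOn (fun s : ℝ => max (-(0.2924 * s)) (1 / 4 * (1 + S / s) - 0.7647 * s))
      (Icc S 1) := by
    rcases eq_or_lt_of_le hS0 with h | h
    · rw [← h]
      simp only [zero_div]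
      fun_prop
    · have : ContinuousOn (fun s : ℝ => S / s) (Icc S 1) := by
        apply ContinuousOn.div continuousOn_const continuousOn_id
        intro s hs
        exact (lt_of_lt_of_le h hs.1).ne'
      fun_prop
  have hI1 : IntervalIntegrable
      (fun s : ℝ => max (-(0.2924 * s)) (1 / 4 * (1 + S / s) - 0.7647 * s)) volume S m := by
    apply ContinuousOn.intervalIntegrable
    rw [uIcc_of_le hSm]
    exact hcont.mono (Icc_subset_Icc_right hm1)
  have hI2 : IntervalIntegrable
      (fun s : ℝ => max (-(0.2924 * s)) (1 / 4 * (1 + S / s) - 0.7647 * s)) volume m 1 := by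
    apply ContinuousOn.intervalIntegrable
    rw [uIcc_of_le hm1]
    exact hcont.mono (Icc_subset_Icc_left hSm)
  rw [← intervalIntegral.integral_add_adjacent_intervals hI1 hI2]
  -- second piece
  have hp2 : ∫ s in m..1, max (-(0.2924 * s)) (1 / 4 * (1 + S / s) - 0.7647 * s) =
      -(0.2924 * ((1 ^ 2 - m ^ 2) / 2)) := by
    rcases le_total m0 1 with h | h
    · have : ∫ s in m..1, max (-(0.2924 * s)) (1 / 4 * (1 + S / s) - 0.7647 * s) =
          ∫ s in m..1, -(0.2924 * s) := by
        apply intervalIntegral.integral_congr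
        intro s hs
        rw [uIcc_of_le hm1] at hs
        apply max_eq_left
        exact hhigh s (by rw [hm, min_eq_left h] at hs; exact hs.1)
      rw [this, intervalIntegral.integral_neg, intervalIntegral.integral_const_mul, integral_id]
    · have h1 : m = 1 := min_eq_right h
      rw [h1]
      simp
  -- first piece
  have hp1 : ∫ s in S..m, max (-(0.2924 * s)) (1 / 4 * (1 + S / s) - 0.7647 * s) =
      (m - S) / 4 + S / 4 * Real.log (m / S) - 0.7647 * ((m ^ 2 - S ^ 2) / 2) := by
    have h0 : ∫ s in S..m, max (-(0.2924 * s)) (1 / 4 * (1 + S / s) - 0.7647 * s) =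
        ∫ s in S..m, (1 / 4 * (1 + S / s) - 0.7647 * s) := by
      apply intervalIntegral.integral_congr_ae
      apply Filter.Eventually.of_forall
      intro s hs
      rw [uIoc_of_le hSm] at hs
      apply max_eq_right
      exact hlow s (lt_of_le_of_lt hS0 hs.1) (hs.2.trans hmm0)
    rw [h0]
    rcases eq_or_lt_of_le hS0 with h | h
    · rw [← h]
      simp only [zero_div, add_zero, zero_mul, mul_one]
      rw [intervalIntegral.integral_sub (by simp) (by
        apply Continuous.intervalIntegrable; fun_prop),
        intervalIntegral.integral_const_mul, integral_id, intervalIntegral.integral_const]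
      simp
      ring
    · have hne : (0 : ℝ) ∉ uIcc S m := by
        rw [uIcc_of_le hSm]
        intro h'
        linarith [h'.1]
      have hI : IntervalIntegrable (fun s : ℝ => s⁻¹) volume S m :=
        intervalIntegral.intervalIntegrable_inv (fun x hx => by
          intro h'; rw [h'] at hx; exact hne hx) continuousOn_id
      have h3 : ∀ s : ℝ, (1 / 4 * (1 + S / s) - 0.7647 * s) =
          1 / 4 + S / 4 * s⁻¹ - 0.7647 * s := by
        intro s
        rw [div_eq_mul_inv S s]
        ring
      simp only [h3]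
      rw [intervalIntegral.integral_sub, intervalIntegral.integral_add,
        intervalIntegral.integral_const_mul, intervalIntegral.integral_const_mul, integral_id,
        intervalIntegral.integral_const, integral_inv hne]
      · simp only [smul_eq_mul]
        ring
      · simp
      · exact hI.const_mul _
      · exact (by simp : IntervalIntegrable (fun _ : ℝ => (1 : ℝ) / 4) volume S m).add
          (hI.const_mul _)
      · apply Continuous.intervalIntegrable; fun_prop
  rw [hp1, hp2]
  have := scal S m hS0 hmpos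
  nlinarith [this]

end VD
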