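import Pool.Agent.Helper50.VD.St

open MeasureTheory Set Filter Topology
open scoped ENNReal

noncomputable section

namespace VD.M_R6

/-- bound of the gauge, flat case -/
lemma g_le_flat (z : ℝ × ℝ) (τ : ℝ) (h1 : 0 ≤ z.1) (h2 : 0 ≤ z.2) (h3 : z.2 ≤ τ)
    (h4 : z.1 + z.2 ≤ 9 / 2 * τ) : g z ≤ 9 / 2 * τ / 6475 := by
  simp only [g, gE, Es, abs_of_nonneg h1]
  push_cast
  simp only [max_le_iff]
  refine ⟨?_, ?_, ?_, ?_, ?_, ?_, ?_, ?_, ?_, ?_, ?_, ?_, ?_⟩ <;>
    first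
      | (rw [div_le_div_iff₀ (by norm_num) (by norm_num)]; nlinarith)
      | (have : (0 : ℝ) ≤ τ := h2.trans h3; positivity)

/-- bound of the gauge, tall case -/
lemma g_le_tall (z : ℝ × ℝ) (τ : ℝ) (hτ : 0 ≤ τ) (h1 : 0 ≤ z.1) (h3 : z.1 ≤ 5 / 3 * τ)
    (h4 : z.2 ≤ 3.36651 * τ) : g z ≤ 0.00091432 * τ := by
  simp only [g, gE, Es, abs_of_nonneg h1]
  push_cast
  simp only [max_le_iff]
  refine ⟨?_, ?_, ?_, ?_, ?_, ?_, ?_, ?_, ?_, ?_, ?_, ?_, ?_⟩ <;>
    first
      | (rw [div_le_iff₀ (by norm_num)]; nlinarith)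
      | positivity

end VD.M_R6

namespace VD

open VD.M_R6

/-- lower bounds for rho (elementary) -/
theorem mR6 (hP0 : StP0) (hK5 : StK5) (hR1 : StR1) (hR5 : StR5) : StR6 := by
  intro A W hSol ρ p q hC
  obtain ⟨hgc, hghom, hgb, -, -, -, -⟩ := hP0
  -- the set of `t`
  set T : Set ℝ := {t | 0 < t ∧ ((5 / 3 * t, t) : ℝ × ℝ) ∈ A} with hT
  have hTne : T.Nonempty := by
    have h1 : 0 ≤ g ((5 / 3, 1) : ℝ × ℝ) := (hgb _ (by norm_num)).1
    refine ⟨ρ / (2 * (g ((5 / 3, 1) : ℝ × ℝ) + 1)), by have := hC.hρ; positivity, ?_⟩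
    have hρ := hC.hρ
    set t : ℝ := ρ / (2 * (g ((5 / 3, 1) : ℝ × ℝ) + 1)) with ht
    have htpos : 0 < t := by positivity
    apply hC.inn
    · exact htpos
    · have h2 := hghom t ((5 / 3, 1) : ℝ × ℝ) htpos.le
      simp only [mul_one] at h2
      rw [mul_comm (5 / 3 : ℝ) t, h2]
      calc t * g ((5 / 3, 1) : ℝ × ℝ) ≤ t * (g ((5 / 3, 1) : ℝ × ℝ) + 1) :=
            mul_le_mul_of_nonneg_left (by linarith) htpos.le
        _ = ρ / 2 := by rw [ht]; field_simp
        _ < ρ := by linarith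
  have hTb : BddAbove T := by
    obtain ⟨R, hR⟩ := hSol.dm.bdd
    exact ⟨R, fun t ht => (hR ht.2).2.2⟩
  set τ : ℝ := sSup T with hτ
  have hτpos : 0 < τ := by
    obtain ⟨t, ht⟩ := hTne
    exact lt_of_lt_of_le ht.1 (le_csSup hTb ht)
  have hin : ∀ t, 0 < t → t < τ → ((5 / 3 * t, t) : ℝ × ℝ) ∈ A := by
    intro t ht0 htτ
    obtain ⟨t', ht', htt'⟩ := exists_lt_of_lt_csSup hTne htτ
    refine hSol.dm.mono _ ht'.2 _ ht0 ?_ htt'.le
    rw [abs_of_nonneg (by positivity), abs_of_nonneg (by have := ht'.1; positivity)]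
    linarith
  have hout : ∀ t, τ < t → ((5 / 3 * t, t) : ℝ × ℝ) ∉ A := by
    intro t htτ hmem
    have : t ∈ T := ⟨hτpos.trans htτ, hmem⟩
    exact absurd (le_csSup hTb this) (not_le.mpr htτ)
  have h1 := hR1 A W hSol τ hτpos hin hout
  have h5 := hR5 A W hSol τ hτpos hin hout
  -- position of `q`
  have hq : 5 / 3 * τ ≤ q.1 ∨ τ ≤ q.2 := by
    by_contra hc
    push Not at hc
    have hU : IsOpen {y : ℝ × ℝ | |y.1| < 5 / 3 * τ ∧ y.2 < τ} :=
      (isOpen_lt (continuous_abs.comp continuous_fst) continuous_const).inter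
        (isOpen_lt continuous_snd continuous_const)
    have hqU : q ∈ {y : ℝ × ℝ | |y.1| < 5 / 3 * τ ∧ y.2 < τ} := by
      refine ⟨?_, hc.2⟩
      rw [abs_of_nonneg hC.q1]
      exact hc.1
    obtain ⟨y, hyU, hyO, hyA⟩ := mem_closure_iff.mp hC.qc _ hU hqU
    apply hyA
    have hy2 : 0 < y.2 := hyO
    set t : ℝ := (max y.2 (3 / 5 * |y.1|) + τ) / 2 with ht
    have hmax : max y.2 (3 / 5 * |y.1|) < τ := by
      apply max_lt hyU.2
      have := hyU.1
      linarith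
    have ht0 : 0 < t := by
      have : y.2 ≤ max y.2 (3 / 5 * |y.1|) := le_max_left _ _
      rw [ht]; linarith
    have htτ : t < τ := by rw [ht]; linarith
    have h5t : |5 / 3 * t| = 5 / 3 * t := abs_of_nonneg (by positivity)
    have hy2t : y.2 ≤ t := by
      have : y.2 ≤ max y.2 (3 / 5 * |y.1|) := le_max_left _ _
      rw [ht]; linarith
    have hy1t : |y.1| ≤ 5 / 3 * t := by
      have : 3 / 5 * |y.1| ≤ max y.2 (3 / 5 * |y.1|) := le_max_right _ _
      rw [ht]; linarith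
    refine hSol.dm.mono _ (hin t ht0 htτ) y hy2 ?_ ?_
    · show |y.1| ≤ |5 / 3 * t|
      rw [h5t]; exact hy1t
    · exact hy2t
  have hρτ : τ / 3887 ≤ ρ := by
    obtain ⟨hg0, hg1, hg2, -⟩ := hgb q hC.q2
    rw [hC.gq] at hg0 hg1 hg2
    rcases hq with h | h
    · have := (le_abs_self q.1).trans hg1
      linarith
    · linarith
  -- position of `p`
  by_cases hpτ : p.2 ≤ τ
  · have hcl : p ∈ {z : ℝ × ℝ | |z.1| + min z.2 τ ≤ 9 / 2 * τ} := by
      have hclosed : IsClosed {z : ℝ × ℝ | |z.1| + min z.2 τ ≤ 9 / 2 * τ} :=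
        isClosed_le (by fun_prop) continuous_const
      refine closure_minimal ?_ hclosed hC.pc
      intro z hz
      have hz2 : 0 < z.2 := hSol.dm.sub hz
      have hw : ((z.1, min z.2 τ) : ℝ × ℝ) ∈ A :=
        hSol.dm.mono z hz _ (lt_min hz2 hτpos) le_rfl (min_le_left _ _)
      exact h5 _ hw (min_le_right _ _)
    simp only [mem_setOf_eq, min_eq_left hpτ, abs_of_nonneg hC.p1] at hcl
    have hg := g_le_flat p τ hC.p1 hC.p2 hpτ hcl
    rw [hC.gp] at hg
    have : 3701 / 10000 ≤ ρ := by linarith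
    exact ⟨fun _ => this, fun _ => by linarith⟩
  · push Not at hpτ
    have hp1 : p.1 ≤ 5 / 3 * τ := by
      have hcl : p ∈ {z : ℝ × ℝ | z.2 ≤ τ} ∪ {z : ℝ × ℝ | |z.1| ≤ 5 / 3 * τ} := by
        have hclosed : IsClosed ({z : ℝ × ℝ | z.2 ≤ τ} ∪ {z : ℝ × ℝ | |z.1| ≤ 5 / 3 * τ}) :=
          (isClosed_le continuous_snd continuous_const).union
            (isClosed_le (continuous_abs.comp continuous_fst) continuous_const)
        refine closure_minimal ?_ hclosed hC.pc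
        intro z hz
        by_contra hc
        simp only [mem_union, mem_setOf_eq, not_or, not_le] at hc
        set t : ℝ := min z.2 (3 / 5 * |z.1|) with ht
        have htτ : τ < t := lt_min hc.1 (by linarith [hc.2])
        apply hout t htτ
        refine hSol.dm.mono z hz _ (hτpos.trans htτ) ?_ (min_le_left _ _)
        simp only
        rw [abs_of_nonneg (by linarith)]
        have : t ≤ 3 / 5 * |z.1| := min_le_right _ _
        linarith
      rcases hcl with h | h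
      · exact absurd h (not_le.mpr hpτ)
      · simp only [mem_setOf_eq, abs_of_nonneg hC.p1] at h
        exact h
    have hp2 : p.2 ^ 2 ≤ 34 / 3 * τ ^ 2 := by
      have hclosed : IsClosed {z : ℝ × ℝ | z.2 ^ 2 ≤ 34 / 3 * τ ^ 2} :=
        isClosed_le (by fun_prop) continuous_const
      exact closure_minimal (fun z hz => h1 z hz) hclosed hC.pc
    have hp2' : p.2 ≤ 3.36651 * τ := by
      apply abs_le_of_sq_le_sq' _ (by positivity) |>.2
      nlinarith [sq_nonneg τ]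
    have hg := g_le_tall p τ hτpos.le hC.p1 hp1 hp2'
    rw [hC.gp] at hg
    refine ⟨fun hpq => ?_, fun _ => by linarith⟩
    obtain ⟨-, -, -, hg3⟩ := hgb p hC.p2
    rw [hC.gp, abs_of_nonneg hC.p1] at hg3
    obtain ⟨-, -, hg2, -⟩ := hgb q hC.q2
    rw [hC.gq] at hg2
    linarith

end VD
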